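import Pool.Agent.H11.CV.Targets

/-!
# MP_e21eee_nt: module RS of the board `cv_modules`
-/

set_option autoImplicit false

open Finset Polynomial

namespace Pool.Agent.H36.CV

open Pool.Agent.H11.CV

lemma rs_lt {p a b ξ z : ℕ} (hξ : ξ < p ^ a) (hz : z < p ^ b) : ξ + p ^ a * z < p ^ (a + b) := by
  calc ξ + p ^ a * z < p ^ a + p ^ a * z := by omega
    _ = p ^ a * (z + 1) := by ring
    _ ≤ p ^ a * p ^ b := Nat.mul_le_mul_left _ hz
    _ = p ^ (a + b) := (pow_add p a b).symm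

lemma rs_sum {p : ℕ} (hp : 1 < p) (a b : ℕ) {E : Type} [AddCommMonoid E] (F : ℕ → E) :
    ∑ x ∈ range (p ^ (a + b)), F x =
      ∑ ξ ∈ range (p ^ a), ∑ z ∈ range (p ^ b), F (ξ + p ^ a * z) := by
  have hpa : 0 < p ^ a := Nat.pow_pos (by omega)
  rw [← Finset.sum_product']
  symm
  refine Finset.sum_bij' (fun x _ => x.1 + p ^ a * x.2) (fun x _ => (x % p ^ a, x / p ^ a))
    ?_ ?_ ?_ ?_ ?_
  · rintro ⟨ξ, z⟩ h
    simp only [mem_product, mem_range] at h ⊢
    exact rs_lt h.1 h.2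
  · intro x h
    simp only [mem_product, mem_range] at h ⊢
    refine ⟨Nat.mod_lt _ hpa, ?_⟩
    rw [Nat.div_lt_iff_lt_mul hpa, mul_comm, ← pow_add]
    exact h
  · rintro ⟨ξ, z⟩ h
    simp only [mem_product, mem_range] at h
    simp only [Prod.mk.injEq]
    constructor
    · rw [Nat.add_mul_mod_self_left, Nat.mod_eq_of_lt h.1]
    · rw [Nat.add_mul_div_left _ _ hpa, Nat.div_eq_of_lt h.1, zero_add]
  · intro x _
    exact Nat.mod_add_div x (p ^ a)
  · rintro ⟨ξ, z⟩ _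
    rfl

theorem rs : T_RS := by
  intro p a b hp
  have hp0 : 0 < p := by omega
  refine ⟨?_, ?_, ?_, ?_, ?_⟩
  · intro E _ F
    exact rs_sum hp a b F
  · intro ξ z hξ hz
    exact rs_lt hξ hz
  · intro x y hx hy h
    have h1 : |(x : ℤ) - y| < (p : ℤ) ^ a := by
      rw [abs_lt]
      have hx' : (x : ℤ) < (p : ℤ) ^ a := by exact_mod_cast hx
      have hy' : (y : ℤ) < (p : ℤ) ^ a := by exact_mod_cast hy
      constructor <;> omega
    have h2 := Int.eq_zero_of_abs_lt_dvd h h1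
    omega
  · intro ha E _ F c
    have hc : ∀ ξ z : ℕ, (ξ + p ^ a * z) % p = ξ % p := by
      intro ξ z
      obtain ⟨a', rfl⟩ : ∃ a', a = a' + 1 := ⟨a - 1, by omega⟩
      rw [pow_succ, mul_comm (p ^ a') p, mul_assoc, Nat.add_mul_mod_self_left]
    rw [Finset.sum_filter, rs_sum hp a b, Finset.sum_filter]
    refine Finset.sum_congr rfl fun ξ _ => ?_
    simp only [hc]
    split_ifs
    · rfl
    · simp
  · intro _ E _ F
    symm
    exact Finset.sum_fiberwise_of_maps_to (fun x _ => mem_range.2 (Nat.mod_lt _ hp0)) F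

end Pool.Agent.H36.CV
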