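import Pool.Agent.H11.CV.Targets

/-!
# MP_e21eee_nt: module CB of the board `cv_modules`
-/

set_option autoImplicit false

open Finset Polynomial

namespace Pool.Agent.H36.CV

open Pool.Agent.H11.CV

theorem cb (hEX : T_EX) : T_CB := by
  obtain ⟨e1, e2, e3, e4, e5, e6, e7⟩ := hEX
  intro p d m G _ τ hp
  have hp0 : 0 < p := by omega
  have h3 : ∀ (a : ℕ) (ξ : ℤ) (φ : ℝ → ℂ) (u : G → ℂ), Cls p d m τ a ξ u →
      Cls p d m τ a ξ (fun g => φ ‖u g‖ * u g) := by
    intro a ξ φ u hu P hP hy g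
    have h := hu P hP hy g
    simp only
    rw [h, norm_mul, e1, one_mul]
    ring
  refine ⟨?_, ?_, h3, ?_, ?_⟩
  · intro a a' ξ ξ' u haa' hξ hu P hP hy g
    have h1 : ∀ y : ℤ, (p : ℤ) ^ a' ∣ y - ξ' → (p : ℤ) ^ m ∣ P.eval y - P.eval ξ' := by
      intro y hy'
      have h2 : (p : ℤ) ^ a ∣ y - ξ := by
        have h3 : (p : ℤ) ^ a ∣ y - ξ' := (pow_dvd_pow _ haa').trans hy'
        have : y - ξ = (y - ξ') + (ξ' - ξ) := by ring
        rw [this]
        exact dvd_add h3 hξ
      have h4 := hy y h2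
      have h5 := hy ξ' hξ
      have : P.eval y - P.eval ξ' = (P.eval y - P.eval ξ) - (P.eval ξ' - P.eval ξ) := by ring
      rw [this]
      exact dvd_sub h4 h5
    rw [hu P hP h1 g]
    congr 1
    apply e3
    · exact Nat.pow_pos hp0
    · have := hy ξ' hξ
      exact_mod_cast this
  · intro a ξ s u hu P hP hy g
    simp only
    rw [Finset.mul_sum]
    exact Finset.sum_congr rfl fun i hi => hu i hi P hP hy g
  · intro a ξ lam u hu
    have h := h3 a ξ (fun t => if t ≤ lam then 1 else 0) u hu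
    have he : (fun g => (fun t : ℝ => if t ≤ lam then (1 : ℂ) else 0) ‖u g‖ * u g) =
        fun g => cut lam (u g) := by
      funext g
      simp only [cut]
      split_ifs <;> simp
    rw [he] at h
    exact h
  · intro a b ξ Q u hba hbm hQ hu g
    have hdeg : (C ((p : ℤ) ^ (m - b)) * Q).natDegree ≤ d :=
      (natDegree_C_mul_le _ _).trans hQ
    have hpm : (p : ℤ) ^ m = (p : ℤ) ^ (m - b) * (p : ℤ) ^ b := by
      rw [← pow_add]; congr 1; omega
    have h := hu _ hdeg (fun y hy => ?_) g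
    · rw [h]
      congr 1
      have h2 := e6 (p ^ b) (p ^ (m - b)) (Q.eval ξ) (Nat.pow_pos hp0)
      rw [← h2]
      have h3 : p ^ m = p ^ b * p ^ (m - b) := by rw [← pow_add]; congr 1; omega
      rw [h3]
      congr 1
      simp
    · simp only [eval_mul, eval_C]
      rw [← mul_sub, hpm]
      apply mul_dvd_mul_left
      exact ((pow_dvd_pow _ hba).trans hy).trans (sub_dvd_eval_sub y ξ Q)

end Pool.Agent.H36.CV
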