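import Pool.Agent.H11.CV.Targets

/-!
# MP_e21eee_nt: module EX of the board `cv_modules`
-/

set_option autoImplicit false

open Finset Polynomial

namespace Pool.Agent.H36.CV

open Pool.Agent.H11.CV

lemma ee_norm (M : ℕ) (a : ℤ) : ‖ee M a‖ = 1 := by
  unfold ee
  have : 2 * Real.pi * Complex.I * ((a : ℂ) / (M : ℂ)) =
      ((2 * Real.pi * ((a : ℝ) / (M : ℝ)) : ℝ) : ℂ) * Complex.I := by
    push_cast
    ring
  rw [this, Complex.norm_exp_ofReal_mul_I]

lemma ee_add (M : ℕ) (a b : ℤ) : ee M (a + b) = ee M a * ee M b := by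
  unfold ee
  rw [← Complex.exp_add]
  congr 1
  push_cast
  ring

lemma ee_zero (M : ℕ) : ee M 0 = 1 := by
  unfold ee
  simp

lemma ee_of_dvd {M : ℕ} (hM : 0 < M) {a : ℤ} (h : (M : ℤ) ∣ a) : ee M a = 1 := by
  obtain ⟨k, rfl⟩ := h
  unfold ee
  have hM' : (M : ℂ) ≠ 0 := by exact_mod_cast hM.ne'
  have : 2 * Real.pi * Complex.I * (((((M : ℤ) * k : ℤ)) : ℂ) / (M : ℂ)) =
      (k : ℂ) * (2 * Real.pi * Complex.I) := by
    push_cast
    field_simp
  rw [this, Complex.exp_int_mul_two_pi_mul_I]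

lemma ee_eq {M : ℕ} (hM : 0 < M) {a b : ℤ} (h : (M : ℤ) ∣ a - b) : ee M a = ee M b := by
  have : a = b + (a - b) := by ring
  rw [this, ee_add, ee_of_dvd hM h, mul_one]

lemma dvd_of_ee {M : ℕ} (hM : 0 < M) {a : ℤ} (h : ee M a = 1) : (M : ℤ) ∣ a := by
  unfold ee at h
  rw [Complex.exp_eq_one_iff] at h
  obtain ⟨n, hn⟩ := h
  have hM' : (M : ℂ) ≠ 0 := by exact_mod_cast hM.ne'
  have h2 : (2 * Real.pi * Complex.I : ℂ) ≠ 0 := Complex.two_pi_I_ne_zero
  have h3 : (a : ℂ) / (M : ℂ) = n := by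
    have : (2 * Real.pi * Complex.I : ℂ) * ((a : ℂ) / (M : ℂ)) = (2 * Real.pi * Complex.I) * n := by
      rw [hn]; ring
    exact mul_left_cancel₀ h2 this
  rw [div_eq_iff hM'] at h3
  refine ⟨n, ?_⟩
  have h4 : a = n * (M : ℤ) := by exact_mod_cast h3
  rw [h4, mul_comm]

lemma ee_pow (M : ℕ) (a : ℤ) (t : ℕ) : ee M (a * (t : ℤ)) = ee M a ^ t := by
  induction t with
  | zero => simp [ee_zero]
  | succ t ih =>
    rw [pow_succ, ← ih, ← ee_add]
    congr 1
    push_cast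
    ring

theorem ex : T_EX := by
  refine ⟨ee_norm, ee_add, ?_, ?_, ?_, ?_, ?_⟩
  · intro M a b hM h
    exact ee_eq hM h
  · intro M a hM h
    exact dvd_of_ee hM h
  · intro M a
    unfold ee
    rw [← Complex.exp_conj]
    congr 1
    simp only [map_mul, map_div₀, Complex.conj_I, Complex.conj_ofReal, map_ofNat]
    have h1 : (starRingEnd ℂ) (a : ℂ) = a := by
      have : (a : ℂ) = ((a : ℝ) : ℂ) := by push_cast; rfl
      rw [this, Complex.conj_ofReal]
    have h2 : (starRingEnd ℂ) (M : ℂ) = M := by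
      have : (M : ℂ) = ((M : ℝ) : ℂ) := by push_cast; rfl
      rw [this, Complex.conj_ofReal]
    rw [h1, h2]
    push_cast
    ring
  · intro M N a hN
    unfold ee
    congr 1
    have hN' : (N : ℂ) ≠ 0 := by exact_mod_cast hN.ne'
    push_cast
    rcases Nat.eq_zero_or_pos M with hM | hM
    · subst hM; simp
    · have hM' : (M : ℂ) ≠ 0 := by exact_mod_cast hM.ne'
      field_simp
  · intro M a hM
    split_ifs with h
    · have : ∀ t ∈ range M, ee M (a * (t : ℤ)) = 1 := fun t _ =>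
        ee_of_dvd hM (h.mul_right _)
      rw [Finset.sum_congr rfl this]
      simp
    · have h1 : ee M a ≠ 1 := fun h' => h (dvd_of_ee hM h')
      simp only [ee_pow]
      rw [geom_sum_eq h1, ← ee_pow, ee_of_dvd hM (Dvd.intro_left _ rfl)]
      simp

end Pool.Agent.H36.CV
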