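import Pool.Agent.H11.CV.Targets

/-!
# MP_e21eee_nt: module NA of the board `cv_modules`
-/

set_option autoImplicit false

open Finset Polynomial

namespace Pool.Agent.H36.CV

open Pool.Agent.H11.CV

lemma cnt_nonneg {G : Type} [AddCommGroup G] [Fintype G] (S : Set G) : 0 ≤ cnt S := by
  unfold cnt
  positivity

lemma cnt_union_le {G : Type} [AddCommGroup G] [Fintype G] (p : ℕ) (A : ℕ → G → Prop) :
    cnt {g : G | ∃ c : ℕ, c < p ∧ A c g} ≤ ∑ c ∈ range p, cnt {g : G | A c g} := by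
  classical
  unfold cnt
  rw [← Nat.cast_sum]
  refine Nat.cast_le.2 ?_
  refine le_trans (Finset.card_le_card ?_) (Finset.card_biUnion_le (s := range p)
    (t := fun c => univ.filter (fun g : G => g ∈ {g : G | A c g})))
  intro g hg
  simp only [mem_filter, mem_univ, true_and, Set.mem_ofPred_eq] at hg
  simp only [mem_biUnion, mem_range, mem_filter, mem_univ, true_and, Set.mem_ofPred_eq]
  exact hg

theorem na (hFB : T_FB) (hRS : T_RS) : T_NA := by
  intro p d n D α G _ _ τ f hp hd hn hα hLev hf hb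
  have hp0 : 0 < p := by omega
  have e1 : n - (n - 1) = 1 := by omega
  obtain ⟨f1, f2, f3⟩ := hFB p d n (n - 1) G τ f hp (by omega)
  rw [e1] at f1 f2 f3
  obtain ⟨-, -, -, r4, -⟩ := hRS p 1 (n - 1) hp
  have e2 : 1 + (n - 1) = n := by omega
  rw [e2] at r4
  have hcl : ∀ c : ℕ, c < p → ∀ g : G,
      clsum p n f c g = ∑ z ∈ range (p ^ (n - 1)), f (c + p ^ 1 * z) g := by
    intro c hc g
    have h1 := r4 le_rfl ℂ (fun x => f x g) c
    unfold clsum
    rw [h1]
    have h2 : (range (p ^ 1)).filter (fun ξ => ξ % p = c) = {c} := by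
      ext x
      simp only [mem_filter, mem_range, mem_singleton, pow_one]
      constructor
      · rintro ⟨hx, hxc⟩
        rwa [Nat.mod_eq_of_lt hx] at hxc
      · rintro rfl
        exact ⟨hc, Nat.mod_eq_of_lt hc⟩
    rw [h2, Finset.sum_singleton]
  have hd' : (0 : ℝ) < 2 * (d : ℝ) := by
    have : (0 : ℝ) < (d : ℝ) := by exact_mod_cast hd
    linarith
  have hα' : 0 < α / (2 * d) := div_pos hα hd'
  have hone : ∀ c ∈ range p,
      cnt {g : G | α / (2 * d) ≤ ‖clsum p n f c g‖} * α ^ (2 * KK d) ≤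
        (2 * (d : ℝ)) ^ (2 * KK d) * (D * (p : ℝ) ^ ((n - 1) * (KK d - 1)) *
          En p (n - 1) (fun z => f (c + p ^ 1 * z))) := by
    intro c hc
    rw [mem_range] at hc
    have h1 := hLev G _ _ (f1 hf c (by simpa using hc)) (f2 hb c (by simpa using hc)) _ hα'
    have h2 : {g : G | α / (2 * d) ≤ ‖clsum p n f c g‖} =
        {g : G | α / (2 * d) ≤ ‖∑ x ∈ range (p ^ (n - 1)), f (c + p ^ 1 * x) g‖} := by
      ext g
      simp only [Set.mem_ofPred_eq, hcl c hc g]
    rw [h2]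
    have h3 : α ^ (2 * KK d) = (2 * (d : ℝ)) ^ (2 * KK d) * (α / (2 * d)) ^ (2 * KK d) := by
      rw [← mul_pow]
      congr 1
      field_simp
    rw [h3]
    calc _ = (2 * (d : ℝ)) ^ (2 * KK d) *
          (cnt {g : G | α / (2 * d) ≤ ‖∑ x ∈ range (p ^ (n - 1)), f (c + p ^ 1 * x) g‖} *
            (α / (2 * d)) ^ (2 * KK d)) := by ring
      _ ≤ _ := mul_le_mul_of_nonneg_left h1 (by positivity)
  calc cnt {g : G | ∃ c : ℕ, c < p ∧ α / (2 * d) ≤ ‖clsum p n f c g‖} * α ^ (2 * KK d)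
      ≤ (∑ c ∈ range p, cnt {g : G | α / (2 * d) ≤ ‖clsum p n f c g‖}) * α ^ (2 * KK d) :=
        mul_le_mul_of_nonneg_right (cnt_union_le p _) (by positivity)
    _ = ∑ c ∈ range p, cnt {g : G | α / (2 * d) ≤ ‖clsum p n f c g‖} * α ^ (2 * KK d) :=
        Finset.sum_mul _ _ _
    _ ≤ ∑ c ∈ range p, (2 * (d : ℝ)) ^ (2 * KK d) * (D * (p : ℝ) ^ ((n - 1) * (KK d - 1)) *
          En p (n - 1) (fun z => f (c + p ^ 1 * z))) := Finset.sum_le_sum hone
    _ = _ := by
        rw [← Finset.mul_sum, ← Finset.mul_sum, ← f3, pow_one]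
        ring

end Pool.Agent.H36.CV
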