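import Pool.Agent.H11.CV.Targets

/-!
# MP_e21eee_nt: module PB of the board `cv_modules`
-/

set_option autoImplicit false

open Finset Polynomial

namespace Pool.Agent.H36.CV

open Pool.Agent.H11.CV

lemma cut_norm_le2 (lam : ℝ) (z : ℂ) : ‖cut lam z‖ ≤ ‖z‖ := by
  unfold cut
  split_ifs
  · exact le_rfl
  · simp

theorem pb (hCB : T_CB) (hL2 : T_L2) (hRS : T_RS) : T_PB := by
  intro p d n lam G _ _ τ f hp hd hf
  have hp0 : 0 < p := by omega
  obtain ⟨c1, c2, c3, c4, c5⟩ := hCB p d (d * n) G τ hp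
  have hcls : ∀ j : ℕ, j ≤ n → ∀ ξ : ℕ, ξ < p ^ (n - j) →
      Cls p d (d * n) τ (n - j) (ξ : ℤ) (pr p n lam f j ξ) := by
    intro j
    induction j with
    | zero =>
      intro _ ξ hξ
      rw [Nat.sub_zero] at hξ ⊢
      exact hf ξ hξ
    | succ j ih =>
      intro hj ξ hξ
      have e1 : n - j = (n - (j + 1)) + 1 := by omega
      refine c2 (n - (j + 1)) (ξ : ℤ) (range p)
        (fun i g => cut lam (pr p n lam f j (ξ + p ^ (n - (j + 1)) * i) g)) ?_
      intro i hi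
      rw [mem_range] at hi
      obtain ⟨-, r2, -, -, -⟩ := hRS p (n - (j + 1)) 1 hp
      have h1 : ξ + p ^ (n - (j + 1)) * i < p ^ (n - j) := by
        rw [e1]
        exact r2 ξ i hξ (by simpa using hi)
      have h2 := c4 _ _ lam _ (ih (by omega) _ h1)
      refine c1 (n - (j + 1)) (n - j) (ξ : ℤ) _ _ (by omega) ?_ h2
      push_cast
      exact ⟨i, by ring⟩
  have hpt : ∀ j : ℕ, j ≤ n → ∀ ξ : ℕ, ξ < p ^ (n - j) →
      Cls p d (d * n) τ (n - j) (ξ : ℤ) (pt p n lam f j ξ) := fun j hj ξ hξ =>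
    c4 _ _ lam _ (hcls j hj ξ hξ)
  have hen : ∀ j : ℕ, j ≤ n →
      ∑ ξ ∈ range (p ^ (n - j)), ∑ g, ‖pr p n lam f j ξ g‖ ^ 2 ≤ En p n f := by
    intro j
    induction j with
    | zero =>
      intro _
      rw [Nat.sub_zero]
      exact le_rfl
    | succ j ih =>
      intro hj
      refine le_trans ?_ (ih (by omega))
      have e1 : n - j = (n - (j + 1)) + 1 := by omega
      obtain ⟨r1, r2, -, -, -⟩ := hRS p (n - (j + 1)) 1 hp
      have hrhs : ∑ ξ ∈ range (p ^ (n - j)), ∑ g, ‖pr p n lam f j ξ g‖ ^ 2 =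
          ∑ ξ ∈ range (p ^ (n - (j + 1))), ∑ i ∈ range p,
            ∑ g, ‖pr p n lam f j (ξ + p ^ (n - (j + 1)) * i) g‖ ^ 2 := by
        rw [e1, r1 ℝ, pow_one]
      rw [hrhs]
      refine Finset.sum_le_sum fun ξ hξ => ?_
      rw [mem_range] at hξ
      have hx : ∀ i, i < p → ξ + p ^ (n - (j + 1)) * i < p ^ (n - j) := by
        intro i hi
        rw [e1]
        exact r2 ξ i hξ (by simpa using hi)
      have h1 := hL2 p d (d * n) (n - j) G τ (range p)
        (fun i => ((ξ + p ^ (n - (j + 1)) * i : ℕ) : ℤ))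
        (fun i => pt p n lam f j (ξ + p ^ (n - (j + 1)) * i)) (fun _ => 1) hp hd
        ((Nat.sub_le _ _).trans (Nat.le_mul_of_pos_left n hd))
        (fun i hi => hpt j (by omega) _ (hx i (mem_range.1 hi)))
        (fun i hi i' hi' hne hdvd => ?_) (fun _ => rfl)
      · simp only [one_mul] at h1
        calc ∑ g, ‖pr p n lam f (j + 1) ξ g‖ ^ 2
            = ∑ i ∈ range p, ∑ g, ‖pt p n lam f j (ξ + p ^ (n - (j + 1)) * i) g‖ ^ 2 := h1
          _ ≤ _ := Finset.sum_le_sum fun i _ => Finset.sum_le_sum fun g _ =>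
              pow_le_pow_left₀ (norm_nonneg _) (cut_norm_le2 _ _) 2
      · obtain ⟨-, -, r3, -, -⟩ := hRS p (n - j) 1 hp
        have h2 := r3 _ _ (hx i (mem_range.1 hi)) (hx i' (mem_range.1 hi')) hdvd
        apply hne
        have h3 : p ^ (n - (j + 1)) * i = p ^ (n - (j + 1)) * i' := by omega
        exact Nat.eq_of_mul_eq_mul_left (Nat.pow_pos hp0) h3
  refine ⟨fun j hj ξ hξ => ⟨hcls j hj ξ hξ, hpt j hj ξ hξ⟩, hen, ?_⟩
  intro j hj
  refine le_trans ?_ (hen j hj)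
  exact Finset.sum_le_sum fun ξ _ => Finset.sum_le_sum fun g _ =>
    pow_le_pow_left₀ (norm_nonneg _) (cut_norm_le2 _ _) 2

end Pool.Agent.H36.CV
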