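import Pool.Agent.H11.CV.Targets

/-!
# MP_e21eee_nt: module SB of the board `cv_modules`
-/

set_option autoImplicit false

open Finset Polynomial

namespace Pool.Agent.H36.CV

open Pool.Agent.H11.CV

lemma lft_natDegree (p d a : ℕ) (ξ : ℤ) (Q : ℤ[X]) : (lft p d a ξ Q).natDegree ≤ d := by
  show (∑ j ∈ range (d + 1), C (Q.coeff j * (p : ℤ) ^ ((d - j) * a)) * (X - C ξ) ^ j).natDegree ≤ d
  refine natDegree_sum_le_of_forall_le _ _ fun j hj => ?_
  rw [mem_range] at hj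
  refine (natDegree_C_mul_le _ _).trans ?_
  refine natDegree_pow_le.trans ?_
  rw [natDegree_X_sub_C]
  omega

lemma lft_eval (p d a : ℕ) (ξ z : ℤ) (Q : ℤ[X]) (hQ : Q.natDegree ≤ d) :
    (lft p d a ξ Q).eval (ξ + (p : ℤ) ^ a * z) = (p : ℤ) ^ (d * a) * Q.eval z := by
  show (∑ j ∈ range (d + 1), C (Q.coeff j * (p : ℤ) ^ ((d - j) * a)) * (X - C ξ) ^ j).eval _ = _
  rw [eval_finsetSum, eval_eq_sum_range' (Nat.lt_succ_of_le hQ) z, Finset.mul_sum]
  refine Finset.sum_congr rfl fun j hj => ?_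
  rw [mem_range] at hj
  simp only [eval_mul, eval_C, eval_pow, eval_sub, eval_X]
  have h1 : ξ + (p : ℤ) ^ a * z - ξ = (p : ℤ) ^ a * z := by ring
  have h2 : d * a = (d - j) * a + j * a := by
    rw [← add_mul]; congr 1; omega
  rw [h1, mul_pow, h2, pow_add, ← pow_mul, mul_comm a j]
  ring

theorem sb (hEX : T_EX) : T_SB := by
  obtain ⟨e1, e2, e3, e4, e5, e6, e7⟩ := hEX
  intro p d m a c G _ τ ξ ζ u hp hdm hu Q hQ hy g
  have hp0 : 0 < p := by omega
  have hpm : (p : ℤ) ^ m = (p : ℤ) ^ (d * a) * (p : ℤ) ^ (m - d * a) := by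
    rw [← pow_add]; congr 1; omega
  have h := hu (lft p d a ξ Q) (lft_natDegree p d a ξ Q) (fun y hy' => ?_) g
  · rw [AddMonoidHom.comp_apply, h, lft_eval p d a ξ ζ Q hQ]
    congr 1
    have h2 := e6 (p ^ (m - d * a)) (p ^ (d * a)) (Q.eval ζ) (Nat.pow_pos hp0)
    rw [← h2]
    have h3 : p ^ m = p ^ (m - d * a) * p ^ (d * a) := by rw [← pow_add]; congr 1; omega
    rw [h3]
    congr 1
  · obtain ⟨w, hw⟩ := hy'
    have h4 : y = ξ + (p : ℤ) ^ a * (ζ + (p : ℤ) ^ c * w) := by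
      rw [pow_add] at hw
      linear_combination hw
    rw [h4, lft_eval p d a ξ _ Q hQ, lft_eval p d a ξ ζ Q hQ, ← mul_sub, hpm]
    apply mul_dvd_mul_left
    apply hy
    exact ⟨w, by ring⟩

end Pool.Agent.H36.CV
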