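import Pool.Agent.H11.CV.Targets

/-!
# MP_e21eee_nt: module SQ of the board `cv_modules`
-/

set_option autoImplicit false

open Finset Polynomial

namespace Pool.Agent.H36.CV

open Pool.Agent.H11.CV

lemma cut_norm_le (lam : ℝ) (z : ℂ) : ‖cut lam z‖ ≤ ‖z‖ := by
  unfold cut
  split_ifs
  · exact le_rfl
  · simp

lemma cut_norm_le' {lam : ℝ} (hl : 0 ≤ lam) (z : ℂ) : ‖cut lam z‖ ≤ lam := by
  unfold cut
  split_ifs with h
  · exact h
  · simpa using hl

theorem sqq (hRS : T_RS) : T_SQ := by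
  intro p n lam G _ f g hp
  refine ⟨?_, ?_, ?_, ?_, ?_⟩
  · intro j hj
    have e1 : n - j = (n - (j + 1)) + 1 := by omega
    obtain ⟨r1, -, -, -, -⟩ := hRS p (n - (j + 1)) 1 hp
    unfold H11.CV.sq
    rw [e1, r1 ℝ, Finset.mul_sum]
    refine Finset.sum_le_sum fun ξ _ => ?_
    have h1 : pr p n lam f (j + 1) ξ g =
        ∑ i ∈ range p, cut lam (pr p n lam f j (ξ + p ^ (n - (j + 1)) * i) g) := rfl
    rw [h1, pow_one]
    calc ‖∑ i ∈ range p, cut lam (pr p n lam f j (ξ + p ^ (n - (j + 1)) * i) g)‖ ^ 2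
        ≤ (∑ i ∈ range p, ‖cut lam (pr p n lam f j (ξ + p ^ (n - (j + 1)) * i) g)‖) ^ 2 :=
          pow_le_pow_left₀ (norm_nonneg _) (norm_sum_le _ _) 2
      _ ≤ (range p).card * ∑ i ∈ range p,
            ‖cut lam (pr p n lam f j (ξ + p ^ (n - (j + 1)) * i) g)‖ ^ 2 :=
          sq_sum_le_card_mul_sum_sq
      _ ≤ p * ∑ i ∈ range p, ‖pr p n lam f j (ξ + p ^ (n - (j + 1)) * i) g‖ ^ 2 := by
          rw [card_range]
          refine mul_le_mul_of_nonneg_left ?_ (Nat.cast_nonneg _)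
          exact Finset.sum_le_sum fun i _ =>
            pow_le_pow_left₀ (norm_nonneg _) (cut_norm_le _ _) 2
  · intro hf
    unfold H11.CV.sq
    rw [Nat.sub_zero]
    calc ∑ ξ ∈ range (p ^ n), ‖pr p n lam f 0 ξ g‖ ^ 2
        ≤ ∑ ξ ∈ range (p ^ n), (1 : ℝ) := by
          refine Finset.sum_le_sum fun ξ hξ => ?_
          have h1 : ‖f ξ g‖ ≤ 1 := hf ξ (mem_range.1 hξ) g
          exact pow_le_one₀ (norm_nonneg _) h1
      _ = (p : ℝ) ^ n := by simp
  · intro j _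
    unfold H11.CV.sq
    refine Finset.sum_le_sum fun ξ _ => ?_
    exact pow_le_pow_left₀ (norm_nonneg _) (cut_norm_le _ _) 2
  · intro hl j ξ
    exact cut_norm_le' hl _
  · intro j
    exact Finset.sum_nonneg fun ξ _ => by positivity

end Pool.Agent.H36.CV
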